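import Pool.Agent.MP_a0a8d4_co.FinalA

set_option autoImplicit false

/-!
# MP_a0a8d4_co: the crossing density of a graphon need not be attained

There is a graphon `W` such that no simple graphon drawing `D` (with Lebesgue measurable `I_D`)
attains the infimum `cd(W)` of the crossing densities `cd(W,D)`.
-/

namespace Pool.Agent.Results.MP_a0a8d4_co.DensityNotAttained

open MeasureTheory Set
open scoped unitInterval
open Pool.Agent.MP_a0a8d4_co

/-- The set `D_W` of the simple graphon drawings `D` with Lebesgue measurable `I_D`. -/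
def DrawSet : Set (I → I → I → Pt) :=
  {D | IsSimpleDrawing D ∧ NullMeasurableSet (crossSet D) volume}

/-- The crossing density `cd(W)`: the infimum of `cd(W,D)` over all `D` in `D_W`. -/
noncomputable def cdInf (W : I → I → ℝ) : ℝ := sInf {x | ∃ D ∈ DrawSet, x = cd W D}

theorem cd_nonneg {W : I → I → ℝ} (hW : IsGraphon W) (D : I → I → I → Pt) : 0 ≤ cd W D := by
  unfold cd
  apply mul_nonneg (by norm_num)
  apply integral_nonneg
  intro v
  apply mul_nonneg (mul_nonneg (hW.nonneg _ _) (hW.nonneg _ _))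
  exact indicator_nonneg (fun _ _ => zero_le_one) _

/-- There is a graphon `W` with `cd(W) < cd(W,D)` for every `D` in `D_W`. -/
theorem result : ∃ W : I → I → ℝ, IsGraphon W ∧ ∀ D ∈ DrawSet, cdInf W < cd W D := by
  refine ⟨W, isGraphon_W, ?_⟩
  rintro D ⟨hD, hm⟩
  obtain ⟨D', hD', hm', hlt⟩ := exists_better D hD hm
  refine lt_of_le_of_lt ?_ hlt
  apply csInf_le
  · refine ⟨0, ?_⟩
    rintro x ⟨E, _, rfl⟩
    exact cd_nonneg isGraphon_W E
  · exact ⟨D', ⟨hD', hm'.nullMeasurableSet⟩, rfl⟩

end Pool.Agent.Results.MP_a0a8d4_co.DensityNotAttained
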